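import Mathlib
import Pool.Agent.SXF.Stmts

set_option autoImplicit false

/-! Row STP of the squad SXF. -/

namespace Pool.Agent.SXF.H28

open MvPolynomial

noncomputable section

variable {E : Type} [Field E] {T : ℕ}

/-- The partial derivative with respect to `X_j`, applied to the coefficients. -/
def dj (j : Fin T) :
    Derivation E (Polynomial (MvPolynomial (Fin T) E)) (Polynomial (MvPolynomial (Fin T) E)) :=
  (PolynomialModule.equivPolynomialSelf :
    PolynomialModule (MvPolynomial (Fin T) E) (MvPolynomial (Fin T) E) ≃ₗ[_] _).toLinearMap.compDer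
    (pderiv j : Derivation E (MvPolynomial (Fin T) E) (MvPolynomial (Fin T) E)).mapCoeffs

theorem dj_coeff (j : Fin T) (p : Polynomial (MvPolynomial (Fin T) E)) (m : ℕ) :
    (dj j p).coeff m = pderiv j (p.coeff m) := rfl

theorem dj_C (j : Fin T) (r : MvPolynomial (Fin T) E) :
    dj j (Polynomial.C r) = Polynomial.C (pderiv j r) := by
  ext1 m
  rw [dj_coeff, Polynomial.coeff_C, Polynomial.coeff_C]
  split_ifs <;> simp

theorem dj_X (j : Fin T) : dj j (Polynomial.X : Polynomial (MvPolynomial (Fin T) E)) = 0 := by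
  ext1 m
  rw [dj_coeff, Polynomial.coeff_X]
  split_ifs <;> simp

/-- The derivation with coefficients `v`. -/
def dv (v : Fin T → Polynomial (MvPolynomial (Fin T) E)) :
    Derivation E (Polynomial (MvPolynomial (Fin T) E)) (Polynomial (MvPolynomial (Fin T) E)) :=
  ∑ j, v j • dj j

theorem dv_apply (v : Fin T → Polynomial (MvPolynomial (Fin T) E))
    (p : Polynomial (MvPolynomial (Fin T) E)) : dv v p = ∑ j, v j * dj j p := by
  change Derivation.coeFnAddMonoidHom (∑ j, v j • dj j) p = _
  rw [map_sum, Finset.sum_apply]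
  rfl

theorem dv_C (v : Fin T → Polynomial (MvPolynomial (Fin T) E)) (r : MvPolynomial (Fin T) E) :
    dv v (Polynomial.C r) = ∑ j, v j * Polynomial.C (pderiv j r) := by
  rw [dv_apply]
  exact Finset.sum_congr rfl fun j _ => by rw [dj_C]

theorem dv_base (v : Fin T → Polynomial (MvPolynomial (Fin T) E)) (a k : ℕ) :
    dv v ((Polynomial.C (a : MvPolynomial (Fin T) E) * Polynomial.X) ^ k) = 0 := by
  have h : dv v (Polynomial.C (a : MvPolynomial (Fin T) E) * Polynomial.X) = 0 := by
    rw [Derivation.leibniz, dv_C, dv_apply]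
    simp [dj_X]
  rw [Derivation.leibniz_pow, h]
  simp

theorem dv_form (v : Fin T → Polynomial (MvPolynomial (Fin T) E)) (a : ℕ) :
    dv v (∑ j : Fin T, Polynomial.C (X j) *
        (Polynomial.C (a : MvPolynomial (Fin T) E) * Polynomial.X) ^ (j : ℕ)) =
      ∑ j : Fin T, v j * (Polynomial.C (a : MvPolynomial (Fin T) E) * Polynomial.X) ^ (j : ℕ) := by
  rw [map_sum]
  refine Finset.sum_congr rfl fun k _ => ?_
  rw [Derivation.leibniz, dv_base, smul_zero, zero_add, dv_C, smul_eq_mul, mul_comm]
  congr 1
  rw [Finset.sum_eq_single k]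
  · simp
  · intro j _ hj
    rw [pderiv_X_of_ne hj.symm]
    simp
  · simp

/-- The chain rule for polynomials with coefficients killed by the derivation. -/
theorem chain {b : ℕ} (D : Derivation E (Polynomial (MvPolynomial (Fin T) E))
      (Polynomial (MvPolynomial (Fin T) E)))
    (l : Fin b → Polynomial (MvPolynomial (Fin T) E))
    (F : MvPolynomial (Fin b) (MvPolynomial (Fin T) E))
    (hF : ∀ m, D (Polynomial.C (F.coeff m)) = 0) :
    D (eval₂ (Polynomial.C : MvPolynomial (Fin T) E →+* _) l F) =
      ∑ i, eval₂ (Polynomial.C : MvPolynomial (Fin T) E →+* _) l (pderiv i F) * D (l i) := by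
  let φ : MvPolynomial (Fin b) (MvPolynomial (Fin T) E) →+* Polynomial (MvPolynomial (Fin T) E) :=
    eval₂Hom (Polynomial.C : MvPolynomial (Fin T) E →+* _) l
  let S : Subring (MvPolynomial (Fin b) (MvPolynomial (Fin T) E)) :=
    { carrier := {G | D (φ G) = ∑ i, φ (pderiv i G) * D (l i)}
      mul_mem' := by
        intro G H hG hH
        simp only [Set.mem_ofPred_eq] at hG hH ⊢
        rw [map_mul, Derivation.leibniz, hG, hH, smul_eq_mul, smul_eq_mul, Finset.mul_sum,
          Finset.mul_sum, ← Finset.sum_add_distrib]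
        refine Finset.sum_congr rfl fun i _ => ?_
        rw [pderiv_mul, map_add, map_mul, map_mul]
        ring
      one_mem' := by
        simp only [Set.mem_ofPred_eq, map_one, Derivation.map_one_eq_zero, map_zero, zero_mul,
          Finset.sum_const_zero]
      add_mem' := by
        intro G H hG hH
        simp only [Set.mem_ofPred_eq] at hG hH ⊢
        rw [map_add, map_add, hG, hH, ← Finset.sum_add_distrib]
        refine Finset.sum_congr rfl fun i _ => ?_
        rw [map_add, map_add]
        ring
      zero_mem' := by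
        simp only [Set.mem_ofPred_eq, map_zero, zero_mul, Finset.sum_const_zero]
      neg_mem' := by
        intro G hG
        simp only [Set.mem_ofPred_eq] at hG ⊢
        rw [map_neg, map_neg, hG, ← Finset.sum_neg_distrib]
        refine Finset.sum_congr rfl fun i _ => ?_
        rw [map_neg, map_neg]
        ring }
  have hX : ∀ i, (X i : MvPolynomial (Fin b) (MvPolynomial (Fin T) E)) ∈ S := by
    intro i
    change D (φ (X i)) = ∑ k, φ (pderiv k (X i)) * D (l k)
    rw [Finset.sum_eq_single i]
    · rw [pderiv_X_self, map_one, one_mul]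
      congr 1
      exact eval₂_X _ _ _
    · intro k _ hk
      rw [pderiv_X_of_ne hk.symm, map_zero, zero_mul]
    · intro h
      exact absurd (Finset.mem_univ i) h
  have hC : ∀ m, (C (F.coeff m) : MvPolynomial (Fin b) (MvPolynomial (Fin T) E)) ∈ S := by
    intro m
    change D (φ (C (F.coeff m))) = ∑ k, φ (pderiv k (C (F.coeff m))) * D (l k)
    rw [show φ (C (F.coeff m)) = Polynomial.C (F.coeff m) from eval₂_C _ _ _, hF]
    simp
  have hmem : F ∈ S := by
    rw [F.as_sum]
    refine Subring.sum_mem _ fun m _ => ?_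
    rw [monomial_eq]
    exact Subring.mul_mem _ (hC m)
      (Subring.prod_mem _ fun i _ => Subring.pow_mem _ (hX i) _)
  exact hmem

theorem totalDegree_pderiv_lt {b : ℕ} {R : Type} [CommRing R] (F : MvPolynomial (Fin b) R)
    (i : Fin b) (hF : pderiv i F ≠ 0) : (pderiv i F).totalDegree < F.totalDegree := by
  obtain ⟨m, hm, hmd⟩ := Finset.exists_mem_eq_sup (pderiv i F).support (support_nonempty.2 hF)
    (fun m => m.sum fun _ e => e)
  have h1 : (pderiv i F).totalDegree = m.sum fun _ e => e := hmd
  have h2 : F.coeff (m + Finsupp.single i 1) ≠ 0 := by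
    intro h0
    rw [mem_support_iff, coeff_pderiv, h0, zero_mul] at hm
    exact hm rfl
  have h3 := le_totalDegree (mem_support_iff.2 h2)
  rw [Finsupp.sum_add_index' (fun _ => rfl) (fun _ _ _ => rfl),
    Finsupp.sum_single_index rfl] at h3
  omega

theorem exists_pderiv_ne_zero {b : ℕ} {R : Type} [CommRing R] [IsDomain R] [CharZero R]
    (F : MvPolynomial (Fin b) R) (m : Fin b →₀ ℕ) (hm : m ≠ 0) (hF : F.coeff m ≠ 0) :
    ∃ i, pderiv i F ≠ 0 := by
  obtain ⟨i, hi⟩ : ∃ i, m i ≠ 0 := by
    by_contra hcon
    push Not at hcon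
    exact hm (Finsupp.ext hcon)
  refine ⟨i, fun h0 => ?_⟩
  have h1 : (pderiv i F).coeff (m - Finsupp.single i 1) = 0 := by rw [h0, coeff_zero]
  have h2 : m - Finsupp.single i 1 + Finsupp.single i 1 = m :=
    tsub_add_cancel_of_le (Finsupp.single_le_iff.2 (Nat.one_le_iff_ne_zero.2 hi))
  rw [coeff_pderiv, h2] at h1
  rcases mul_eq_zero.1 h1 with h | h
  · exact hF h
  · exact Nat.cast_add_one_ne_zero _ h

theorem dv_kills {t : ℕ} (h : Fin t → MvPolynomial (Fin T) E)
    (v : Fin T → Polynomial (MvPolynomial (Fin T) E))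
    (hv : ∀ l, ∑ j, v j * Polynomial.C (pderiv j (h l)) = 0) (r : MvPolynomial (Fin T) E)
    (hr : r ∈ Algebra.adjoin E (Set.range h)) : dv v (Polynomial.C r) = 0 := by
  induction hr using Algebra.adjoin_induction with
  | mem x hx =>
    obtain ⟨l, rfl⟩ := hx
    rw [dv_C, hv]
  | algebraMap c =>
    rw [dv_C]
    refine Finset.sum_eq_zero fun j _ => ?_
    rw [MvPolynomial.algebraMap_eq, pderiv_C, map_zero, mul_zero]
  | add x y _ _ hx hy => rw [map_add, map_add, hx, hy, add_zero]
  | mul x y _ _ hx hy =>
    rw [map_mul, Derivation.leibniz, hx, hy, smul_zero, smul_zero, add_zero]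

theorem stp (hK : KveStmt) : StpStmt := by
  intro E _ _ t b T hT a ha ha1 h
  have key : ∀ d : ℕ, ∀ F : MvPolynomial (Fin b) (MvPolynomial (Fin T) E), F.totalDegree ≤ d →
      (∀ m, F.coeff m ∈ Algebra.adjoin E (Set.range h)) → F ≠ 0 →
      eval₂ (Polynomial.C : MvPolynomial (Fin T) E →+* _)
        (fun i => ∑ j : Fin T, Polynomial.C (X j) *
          (Polynomial.C (a i : MvPolynomial (Fin T) E) * Polynomial.X) ^ (j : ℕ)) F ≠ 0 := by
    intro d
    induction d with
    | zero =>
      intro F hd _ hF0 h0
      rw [totalDegree_eq_zero_iff_eq_C.1 (Nat.le_zero.1 hd), eval₂_C] at h0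
      apply hF0
      rw [totalDegree_eq_zero_iff_eq_C.1 (Nat.le_zero.1 hd), Polynomial.C_eq_zero.1 h0, C_0]
    | succ d ih =>
      intro F hd hF hF0 h0
      by_cases hm : ∃ m : Fin b →₀ ℕ, m ≠ 0 ∧ F.coeff m ≠ 0
      · obtain ⟨m, hm, hFm⟩ := hm
        obtain ⟨i0, hi0⟩ := exists_pderiv_ne_zero F m hm hFm
        obtain ⟨v, q, hq, hv, hl⟩ := hK E t b T hT a ha ha1 h i0
        have h1 := chain (dv v) (fun i => ∑ j : Fin T, Polynomial.C (X j) *
          (Polynomial.C (a i : MvPolynomial (Fin T) E) * Polynomial.X) ^ (j : ℕ)) F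
          (fun m => dv_kills h v hv _ (hF m))
        rw [h0, map_zero, Finset.sum_eq_single i0] at h1
        · rw [dv_form, hl, if_pos rfl] at h1
          rcases mul_eq_zero.1 h1.symm with h2 | h2
          · refine ih (pderiv i0 F) ?_ ?_ hi0 h2
            · have := totalDegree_pderiv_lt F i0 hi0
              omega
            · intro m'
              rw [coeff_pderiv]
              exact mul_mem (hF _) (add_mem (natCast_mem _ _) (one_mem _))
          · exact hq h2
        · intro i _ hi
          rw [dv_form, hl, if_neg hi, mul_zero]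
        · intro h
          exact absurd (Finset.mem_univ i0) h
      · push Not at hm
        have h2 : F = C (F.coeff 0) := by
          ext1 m
          rw [coeff_C]
          split_ifs with h3
          · rw [h3]
          · exact hm m (Ne.symm h3)
        rw [h2, eval₂_C] at h0
        apply hF0
        rw [h2, Polynomial.C_eq_zero.1 h0, C_0]
  exact fun F hF hF0 => key _ F le_rfl hF hF0

end

end Pool.Agent.SXF.H28
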